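import Pool.Agent.MP_6b3e96_gt.H30.Top

/-!
The index form of the closed surface is the sum of the local forms.
-/

open scoped ContDiff Topology RealInnerProductSpace MeasureTheory Real
open Set Filter Metric MeasureTheory Complex

noncomputable section

namespace Pool.Agent.MP_6b3e96_gt.H30

open Pool.Agent.MP_6b3e96_gt.H77

theorem isOpen_box (a b : ℝ) : IsOpen (box a b) := isOpen_Ioo.reProdIm isOpen_Ioo

theorem box_ae : box 0 1 =ᵐ[volume] Sq := by
  have : box 0 1 = interior Sq := by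
    rw [Sq, interior_reProdIm, interior_Icc]
    rfl
  rw [this]
  exact interior_ae_eq_of_null_frontier (convex_Sq.addHaar_frontier volume)

theorem contDiff_sp (i : Fin 4) : ContDiff ℝ 1 (sp i) := by
  have h1 : ContDiff ℝ 1 fun t : ℝ => (t : ℂ) := Complex.ofRealCLM.contDiff
  have : sp i = fun t : ℝ => (t : ℂ) * ![1, I, I, 1] i + ![0, 0, 1, I] i := by
    funext t
    fin_cases i <;> apply Complex.ext <;> simp [sp]
  rw [this]
  exact (h1.mul contDiff_const).add contDiff_const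

theorem side_cover {w : ℂ} (hw : w ∈ Sq) (hb : w ∉ box 0 1) : ∃ i t, w = sp i t := by
  by_contra hn
  push Not at hn
  refine hb ⟨⟨lt_of_le_of_ne hw.1.1 fun h => hn 1 w.im ?_, lt_of_le_of_ne hw.1.2 fun h =>
    hn 2 w.im ?_⟩, lt_of_le_of_ne hw.2.1 fun h => hn 0 w.re ?_, lt_of_le_of_ne hw.2.2 fun h =>
    hn 3 w.re ?_⟩
  · exact Complex.ext h.symm rfl
  · exact Complex.ext h rfl
  · exact Complex.ext rfl h.symm
  · exact Complex.ext rfl h

theorem sides_null (P : Pc) (k : E4 ≃ₗᵢ[ℝ] E4) :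
    μHE[2] ((fun w => k (P.g w)) '' (Sq \ box 0 1)) = 0 := by
  have hd : dimH ((fun w => k (P.g w)) '' (Sq \ box 0 1)) ≤ 1 := by
    have hs : (fun w => k (P.g w)) '' (Sq \ box 0 1) ⊆ {k (P.g 0)} ∪
        ⋃ i, (fun t => k (P.g (sp i t))) '' {t | sp i t ∈ Sq ∧ sp i t ≠ 0} := by
      rintro _ ⟨w, hw, rfl⟩
      by_cases h0 : w = 0
      · exact Or.inl (by rw [h0]; rfl)
      · obtain ⟨i, t, rfl⟩ := side_cover hw.1 hw.2
        exact Or.inr (mem_iUnion.2 ⟨i, t, ⟨hw.1, h0⟩, rfl⟩)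
    refine (dimH_mono hs).trans ?_
    rw [dimH_union, dimH_singleton, dimH_iUnion]
    refine max_le zero_le_one (iSup_le fun i => ?_)
    refine (dimH_image_le_of_locally_lipschitzOn fun t ht => ?_).trans
      ((dimH_mono (subset_univ _)).trans Real.dimH_univ.le)
    have : ContDiffAt ℝ 1 (fun t => k (P.g (sp i t))) t :=
      k.contDiff.contDiffAt.comp t ((P.sm _ ht.1 ht.2).comp t (contDiff_sp i).contDiffAt)
    obtain ⟨C, s, hs, h⟩ := this.exists_lipschitzOnWith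
    exact ⟨C, s, mem_nhdsWithin_of_mem_nhds hs, h⟩
  have h2 : μH[((2 : NNReal) : ℝ)] ((fun w => k (P.g w)) '' (Sq \ box 0 1)) = 0 :=
    hausdorffMeasure_of_dimH_lt (hd.trans_lt (by norm_num))
  have h3 : ((2 : NNReal) : ℝ) = ((2 : ℕ) : ℝ) := by norm_num
  rw [h3] at h2
  rw [Measure.euclideanHausdorffMeasure_def, Measure.smul_apply, h2, smul_zero]

theorem M_ae (hG : GroupStmt) (P : Pc) :
    (⋃ k : W, (fun w => k.1 (P.g w)) '' box 0 1) =ᵐ[μHE[2]] P.M := by
  have := finite_W hG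
  refine ae_eq_set.2 ⟨?_, ?_⟩
  · rw [sdiff_eq_empty.2, measure_empty]
    refine iUnion_subset ?_
    rintro k _ ⟨w, hw, rfl⟩
    exact (mem_M P).2 ⟨k, k.2, w, box_sub hw, rfl⟩
  · refine measure_mono_null (t := ⋃ k : W, (fun w => k.1 (P.g w)) '' (Sq \ box 0 1)) ?_
      (measure_iUnion_null fun k => sides_null P k)
    rintro x ⟨hx, hn⟩
    obtain ⟨k, hk, w, hw, rfl⟩ := (mem_M P).1 hx
    exact mem_iUnion.2 ⟨⟨k, hk⟩, w, ⟨hw, fun hb => hn (mem_iUnion.2 ⟨⟨k, hk⟩, w, hb, rfl⟩)⟩, rfl⟩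

theorem sm_box (P : Pc) (k : E4 ≃ₗᵢ[ℝ] E4) {w : ℂ} (hw : w ∈ box 0 1) :
    ContDiffAt ℝ 1 (fun w => k (P.g w)) w :=
  k.contDiff.contDiffAt.comp w (P.sm w (box_sub hw) (ne_zero_of_box hw))

theorem conf_box (P : Pc) (k : E4 ≃ₗᵢ[ℝ] E4) {w : ℂ} (hw : w ∈ box 0 1) :
    0 < P.lam w ∧ ∀ v, ‖fderiv ℝ (fun w => k (P.g w)) w v‖ = P.lam w * ‖v‖ := by
  obtain ⟨h1, h2⟩ := P.conf w (box_sub hw) (ne_zero_of_box hw)
  refine ⟨h1, fun v => ?_⟩
  have : fderiv ℝ (fun w => k (P.g w)) w = _ := k.comp_fderiv (f := P.g) (x := w)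
  rw [this]
  exact (k.norm_map _).trans (h2 v)

theorem integrableOn_inv_norm : IntegrableOn (fun w : ℂ => ‖w‖⁻¹) (box 0 1) := by
  have h : IntegrableOn (fun w : ℂ => ‖w‖⁻¹) (ball 0 3) := by
    refine integrableOn_ball_of_norm_le_rpow (C := 1) (α := 1) (by simp) (by simp)
      (Eventually.of_forall fun w => ?_) (by fun_prop)
    simp [Real.rpow_neg_one]
  refine h.mono_set fun w hw => ?_
  rw [mem_ball_zero_iff]
  have := Complex.norm_le_abs_re_add_abs_im w
  rw [abs_of_pos hw.1.1, abs_of_pos hw.2.1] at this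
  linarith [hw.1.2, hw.2.2]

theorem integrableOn_form (P : Pc) (k : E4 ≃ₗᵢ[ℝ] E4) {F : E4 → ℝ} (hF : ContDiff ℝ ∞ F) :
    IntegrableOn (fun w => d1 (fun w => F (k (P.g w))) w ^ 2 + d2 (fun w => F (k (P.g w))) w ^ 2 -
      P.V w * F (k (P.g w)) ^ 2) (box 0 1) := by
  have hF1 : ContDiff ℝ 1 F := hF.of_le (by exact_mod_cast le_top)
  have hc : ∀ w ∈ box 0 1, ContDiffAt ℝ 1 (fun w => F (k (P.g w))) w := fun w hw =>
    hF1.contDiffAt.comp w (sm_box P k hw)
  obtain ⟨B, hB⟩ := (isCompact_sphere (0 : E4) 1).exists_bound_of_continuousOn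
    (hF1.continuous_fderiv one_ne_zero).continuousOn
  obtain ⟨A, hA⟩ := (isCompact_sphere (0 : E4) 1).exists_bound_of_continuousOn
    hF1.continuous.continuousOn
  obtain ⟨C, hC⟩ := P.bd
  have hm := (isOpen_box 0 1).measurableSet
  refine Integrable.mono' (integrableOn_inv_norm.const_mul (C * (2 * B ^ 2 + A ^ 2)))
    (ContinuousOn.aestronglyMeasurable ?_ hm) ?_
  · have h1 : ContinuousOn (fderiv ℝ fun w => F (k (P.g w))) (box 0 1) := fun w hw =>
      ((hc w hw).continuousAt_fderiv one_ne_zero).continuousWithinAt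
    have h2 : ContinuousOn (fun w => F (k (P.g w))) (box 0 1) := fun w hw =>
      (hc w hw).continuousAt.continuousWithinAt
    have h3 : ContinuousOn P.V (box 0 1) := P.Vc.mono fun w hw => ⟨box_sub hw, ne_zero_of_box hw⟩
    exact (((h1.clm_apply continuousOn_const).pow 2).add
      ((h1.clm_apply continuousOn_const).pow 2)).sub (h3.mul (h2.pow 2))
  · refine (ae_restrict_iff' hm).2 (Eventually.of_forall fun w hw => ?_)
    have hs : k (P.g w) ∈ sphere (0 : E4) 1 := by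
      rw [mem_sphere_zero_iff_norm, k.norm_map, P.sph w (box_sub hw)]
    obtain ⟨h1, h2⟩ := hC w (box_sub hw) (ne_zero_of_box hw)
    obtain ⟨h3, h4⟩ := conf_box P k hw
    have hd : ∀ v : ℂ, ‖v‖ = 1 →
        fderiv ℝ (fun w => F (k (P.g w))) w v ^ 2 ≤ B ^ 2 * (C / ‖w‖) := by
      intro v hv
      have e : fderiv ℝ (fun w => F (k (P.g w))) w = _ :=
        fderiv_comp w (hF1.differentiable one_ne_zero _)
          ((sm_box P k hw).differentiableAt one_ne_zero)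
      have e2 : ‖fderiv ℝ (fun w => F (k (P.g w))) w v‖ ≤ B * P.lam w := by
        rw [e, ContinuousLinearMap.comp_apply]
        refine (ContinuousLinearMap.le_opNorm _ _).trans ?_
        rw [h4, hv, mul_one]
        exact mul_le_mul_of_nonneg_right (hB _ hs) h3.le
      calc _ = ‖fderiv ℝ (fun w => F (k (P.g w))) w v‖ ^ 2 := by rw [Real.norm_eq_abs, sq_abs]
        _ ≤ (B * P.lam w) ^ 2 := by gcongr
        _ = B ^ 2 * P.lam w ^ 2 := by ring
        _ ≤ _ := by gcongr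
    have hA2 : F (k (P.g w)) ^ 2 ≤ A ^ 2 := by
      rw [← sq_abs]
      exact pow_le_pow_left₀ (abs_nonneg _) (hA _ hs) 2
    have h5 : |P.V w * F (k (P.g w)) ^ 2| ≤ C / ‖w‖ * A ^ 2 := by
      rw [abs_mul, abs_of_nonneg (sq_nonneg (F _))]
      exact mul_le_mul h2 hA2 (sq_nonneg _) ((abs_nonneg _).trans h2)
    have h6 := hd 1 norm_one
    have h7 := hd I norm_I
    have h8 : C * (2 * B ^ 2 + A ^ 2) * ‖w‖⁻¹ = 2 * (B ^ 2 * (C / ‖w‖)) + C / ‖w‖ * A ^ 2 := by
      ring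
    rw [h8, Real.norm_eq_abs, abs_le]
    obtain ⟨h9, h10⟩ := abs_le.1 h5
    unfold d1 d2
    constructor <;> nlinarith [sq_nonneg (fderiv ℝ (fun w => F (k (P.g w))) w 1),
      sq_nonneg (fderiv ℝ (fun w => F (k (P.g w))) w I)]

theorem fderiv_scale {f : ℂ → ℝ} {w : ℂ} (hf : DifferentiableAt ℝ f w) (c : ℝ) (v : ℂ) :
    fderiv ℝ (fun z => f (w + c • z)) 0 v = c * fderiv ℝ f w v := by
  have h1 : HasFDerivAt (fun z : ℂ => w + c • z) (c • ContinuousLinearMap.id ℝ ℂ) 0 :=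
    ((hasFDerivAt_id (0 : ℂ)).const_smul c).const_add w
  have h2 : HasFDerivAt f (fderiv ℝ f w) (w + c • (0 : ℂ)) := by simpa using hf.hasFDerivAt
  have h3 := (h2.comp 0 h1).fderiv
  have h4 : fderiv ℝ (fun z => f (w + c • z)) 0 = _ := h3
  rw [h4, ContinuousLinearMap.comp_apply, _root_.smul_apply, map_smul]
  rfl

theorem global (hG : GroupStmt) (hA : AreaStmt) : GlobalStmt := by
  intro P
  obtain ⟨S, hS, hφ⟩ := exists_surf hG P
  refine ⟨S, hS, fun F hF => ?_⟩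
  have := finite_W hG
  have := Fintype.ofFinite W
  have hF1 : ContDiff ℝ 1 F := hF.of_le (by exact_mod_cast le_top)
  have hm := (isOpen_box 0 1).measurableSet
  have hq : ∀ k : W, EqOn (fun w => P.lam w ^ 2 * S.q F (k.1 (P.g w)))
      (fun w => d1 (fun w => F (k.1 (P.g w))) w ^ 2 + d2 (fun w => F (k.1 (P.g w))) w ^ 2 -
        P.V w * F (k.1 (P.g w)) ^ 2) (box 0 1) := by
    intro k w hw
    obtain ⟨h1, h2⟩ := hφ k k.2 w hw
    have h3 : F ∘ S.φ (k.1 (P.g w)) =ᶠ[𝓝 0] fun z => F (k.1 (P.g (w + (P.lam w)⁻¹ • z))) :=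
      h1.mono fun z hz => congrArg F hz
    have h4 : DifferentiableAt ℝ (fun w => F (k.1 (P.g w))) w :=
      (hF1.contDiffAt.comp w (sm_box P k hw)).differentiableAt one_ne_zero
    have h5 := (conf_box P k hw).1.ne'
    simp only [MinSurf.q, d1, d2]
    rw [h3.fderiv_eq, fderiv_scale h4, fderiv_scale h4, ← h2]
    field_simp
  have hinj : ∀ k : W, InjOn (fun w => k.1 (P.g w)) (box 0 1) := fun k w hw w' hw' h =>
    P.inj (box_sub hw) (box_sub hw') (k.1.injective h)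
  have hcd : ∀ k : W, ContDiffOn ℝ 1 (fun w => k.1 (P.g w)) (box 0 1) := fun k w hw =>
    (sm_box P k hw).contDiffWithinAt
  have har := fun k : W => hA (box 0 1) (fun w => k.1 (P.g w)) P.lam (S.q F) (isOpen_box 0 1)
    (hcd k) (hinj k) fun w hw => conf_box P k hw
  have hint : ∀ k : W, IntegrableOn (S.q F) ((fun w => k.1 (P.g w)) '' box 0 1) μHE[2] := fun k =>
    (har k).1.2 ((integrableOn_form P k hF).congr_fun (hq k).symm hm)
  rw [hS]
  refine ⟨(integrableOn_finite_iUnion.2 hint).congr_set_ae (M_ae hG P).symm, ?_⟩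
  rw [← setIntegral_congr_set (M_ae hG P), integral_iUnion_fintype
    (fun k => hm.image_of_continuousOn_injOn (hcd k).continuousOn (hinj k)) ?_ hint,
    finsum_eq_sum_of_fintype]
  · refine Finset.sum_congr rfl fun k _ => ?_
    rw [(har k).2, setIntegral_congr_fun hm (hq k), form, setIntegral_congr_set box_ae]
  · intro k k' hne
    refine disjoint_left.2 ?_
    rintro _ ⟨w, hw, rfl⟩ ⟨w', hw', h⟩
    exact hne (Subtype.ext (uniq hG P k.2 k'.2 hw (box_sub hw') h).2.symm)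

end Pool.Agent.MP_6b3e96_gt.H30
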