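import Pool.Agent.MP_6b3e96_gt.H77.Spec

/-!
The union of the images of the fundamental piece is a closed embedded minimal surface.
-/

open scoped ContDiff Topology RealInnerProductSpace MeasureTheory Real
open Set Filter Metric MeasureTheory Complex

noncomputable section

namespace Pool.Agent.MP_6b3e96_gt.H30

open Pool.Agent.MP_6b3e96_gt.H77

theorem isCompact_Sq : IsCompact Sq := isCompact_Icc.reProdIm isCompact_Icc

theorem convex_Sq : Convex ℝ Sq := by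
  have : Sq = (Complex.reLm ⁻¹' Icc (0 : ℝ) 1) ∩ (Complex.imLm ⁻¹' Icc (0 : ℝ) 1) := rfl
  rw [this]
  exact ((convex_Icc 0 1).linear_preimage _).inter ((convex_Icc 0 1).linear_preimage _)

theorem zero_mem_Sq : (0 : ℂ) ∈ Sq := by
  simp [Sq, mem_reProdIm]

theorem sp_mem_Sq (i : Fin 4) {t : ℝ} (ht : t ∈ Icc (0 : ℝ) 1) : sp i t ∈ Sq := by
  fin_cases i <;> simp [sp, Sq, mem_reProdIm, ht.1, ht.2]

theorem sd_sp (i : Fin 4) (t : ℝ) : sd i (sp i t) = 0 := by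
  fin_cases i <;> simp [sp, sd]

theorem refl_inv (i : Fin 4) : (refl i)⁻¹ = refl i := rfl

theorem refl_fix {i : Fin 4} {x : E4} (h : ⟪root i, x⟫ = 0) : refl i x = x :=
  Submodule.reflection_mem_subspace_eq_self
    (Submodule.mem_orthogonal_singleton_iff_inner_right.2 h)

theorem closure_fix {x : E4} {k : E4 ≃ₗᵢ[ℝ] E4}
    (hk : k ∈ Subgroup.closure (refl '' {i | ⟪root i, x⟫ = 0})) : k x = x := by
  induction hk using Subgroup.closure_induction'' with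
  | mem y hy => obtain ⟨i, hi, rfl⟩ := hy; exact refl_fix hi
  | inv_mem y hy => obtain ⟨i, hi, rfl⟩ := hy; exact refl_fix hi
  | one => rfl
  | mul a b _ _ ha hb => rw [LinearIsometryEquiv.coe_mul, Function.comp_apply, hb, ha]

theorem finite_W (hG : GroupStmt) : Finite W := by
  obtain ⟨e, -⟩ := hG.1
  exact Finite.of_equiv _ e

/-- two points of the piece in the same orbit agree -/
theorem key (hG : GroupStmt) (P : Pc) {k : E4 ≃ₗᵢ[ℝ] E4} (hk : k ∈ W) {w w' : ℂ} (hw : w ∈ Sq)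
    (hw' : w' ∈ Sq) (h : k (P.g w') = P.g w) :
    w' = w ∧ k ∈ Subgroup.closure (refl '' {i | sd i w = 0}) := by
  have h1 := hG.2.1 k hk (P.g w') (fun i => (P.cham w' hw' i).1)
    (fun i => h ▸ (P.cham w hw i).1)
  have h2 : w' = w := P.inj hw' hw ((closure_fix h1).symm.trans h)
  subst h2
  refine ⟨rfl, ?_⟩
  have : {i | sd i w' = 0} = {i | ⟪root i, P.g w'⟫ = 0} := by
    ext i
    exact (P.cham w' hw i).2.symm
  rwa [this]

theorem piece_compact (P : Pc) (k : E4 ≃ₗᵢ[ℝ] E4) : IsCompact (k '' (P.g '' Sq)) :=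
  (isCompact_Sq.image_of_continuousOn P.cont).image k.continuous

theorem piece_conn (P : Pc) (k : E4 ≃ₗᵢ[ℝ] E4) : IsPreconnected (k '' (P.g '' Sq)) :=
  (convex_Sq.isPreconnected.image _ P.cont).image _ k.continuous.continuousOn

theorem piece_sub (P : Pc) {k : E4 ≃ₗᵢ[ℝ] E4} (hk : k ∈ W) : k '' (P.g '' Sq) ⊆ P.M :=
  subset_biUnion_of_mem (u := fun k : E4 ≃ₗᵢ[ℝ] E4 => k '' (P.g '' Sq)) hk

theorem mem_M (P : Pc) {x : E4} : x ∈ P.M ↔ ∃ k ∈ W, ∃ w ∈ Sq, k (P.g w) = x := by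
  simp only [Pc.M, mem_iUnion, mem_image, exists_prop]
  constructor
  · rintro ⟨k, hk, y, ⟨w, hw, rfl⟩, rfl⟩
    exact ⟨k, hk, w, hw, rfl⟩
  · rintro ⟨k, hk, w, hw, rfl⟩
    exact ⟨k, hk, _, ⟨w, hw, rfl⟩, rfl⟩

theorem M_compact (hG : GroupStmt) (P : Pc) : IsCompact P.M := by
  have := finite_W hG
  exact (Set.toFinite (W : Set (E4 ≃ₗᵢ[ℝ] E4))).isCompact_biUnion fun k _ => piece_compact P k

theorem M_conn (P : Pc) : IsConnected P.M := by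
  have h0 : P.g 0 ∈ (1 : E4 ≃ₗᵢ[ℝ] E4) '' (P.g '' Sq) := ⟨_, ⟨0, zero_mem_Sq, rfl⟩, rfl⟩
  have H : ∀ k ∈ W, ∃ t, t ⊆ P.M ∧ P.g 0 ∈ t ∧ k '' (P.g '' Sq) ⊆ t ∧ IsPreconnected t := by
    intro k hk
    have step : ∀ k ∈ W, ∀ i, (∃ t, t ⊆ P.M ∧ P.g 0 ∈ t ∧ k '' (P.g '' Sq) ⊆ t ∧
        IsPreconnected t) → ∃ t, t ⊆ P.M ∧ P.g 0 ∈ t ∧ (k * refl i) '' (P.g '' Sq) ⊆ t ∧
        IsPreconnected t := by
      rintro k hk i ⟨t, h1, h2, h3, h4⟩
      have hs : sp i 0 ∈ Sq := sp_mem_Sq i ⟨le_rfl, zero_le_one⟩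
      refine ⟨t ∪ (k * refl i) '' (P.g '' Sq), union_subset h1 (piece_sub P (W.mul_mem hk (rW i).2)),
        Or.inl h2, subset_union_right, h4.union (k (P.g (sp i 0))) (h3 ⟨_, ⟨_, hs, rfl⟩, rfl⟩)
        ⟨_, ⟨_, hs, rfl⟩, ?_⟩ (piece_conn P _)⟩
      rw [LinearIsometryEquiv.coe_mul, Function.comp_apply,
        refl_fix ((P.cham _ hs i).2.2 (sd_sp i 0))]
    induction hk using Subgroup.closure_induction_right with
    | one => exact ⟨_, piece_sub P W.one_mem, h0, subset_rfl, piece_conn P _⟩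
    | mul_right x hx y hy ih => obtain ⟨i, rfl⟩ := hy; exact step x hx i ih
    | mul_inv_cancel x hx y hy ih => obtain ⟨i, rfl⟩ := hy; exact step x hx i ih
  refine ⟨⟨_, piece_sub P W.one_mem h0⟩, isPreconnected_of_forall (P.g 0) fun y hy => ?_⟩
  obtain ⟨k, hk, w, hw, rfl⟩ := (mem_M P).1 hy
  obtain ⟨t, h1, h2, h3, h4⟩ := H k hk
  exact ⟨t, h1, h2, h3 ⟨_, ⟨w, hw, rfl⟩, rfl⟩, h4⟩

theorem image_M (P : Pc) {k : E4 ≃ₗᵢ[ℝ] E4} (hk : k ∈ W) : k '' P.M = P.M := by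
  ext x
  simp only [mem_image, mem_M]
  constructor
  · rintro ⟨_, ⟨k', hk', w, hw, rfl⟩, rfl⟩
    exact ⟨k * k', W.mul_mem hk hk', w, hw, rfl⟩
  · rintro ⟨k', hk', w, hw, rfl⟩
    refine ⟨_, ⟨k⁻¹ * k', W.mul_mem (W.inv_mem hk) hk', w, hw, rfl⟩, ?_⟩
    simp

theorem sff_comp (k : E4 ≃ₗᵢ[ℝ] E4) (ψ : ℂ → E4) (N : E4) (v w : ℂ) :
    sff (k ∘ ψ) (k N) v w = sff ψ N v w := by
  unfold sff
  have : (fun z => fderiv ℝ (k ∘ ψ) z v) = k ∘ fun z => fderiv ℝ ψ z v := by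
    ext1 z
    rw [k.comp_fderiv]
    rfl
  rw [this, k.comp_fderiv]
  exact k.inner_map_map _ _

theorem normA2_comp (k : E4 ≃ₗᵢ[ℝ] E4) (ψ : ℂ → E4) (N : E4) :
    normA2 (k ∘ ψ) (k N) = normA2 ψ N := by
  simp only [normA2, sff_comp]

theorem chart_comp (k : E4 ≃ₗᵢ[ℝ] E4) {ψ : ℂ → E4} {x N : E4} (h : IsChart ψ x N) :
    IsChart (k ∘ ψ) (k x) (k N) where
  smooth := by
    obtain ⟨U, hU, hs⟩ := h.smooth
    exact ⟨U, hU, k.contDiff.comp_contDiffOn hs⟩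
  center := by rw [Function.comp_apply, h.center]
  iso v := by
    rw [k.comp_fderiv]
    exact (k.norm_map _).trans (h.iso v)
  unit := (k.norm_map _).trans h.unit
  tang := (k.inner_map_map _ _).trans h.tang
  nor v := by
    rw [k.comp_fderiv]
    exact (k.inner_map_map _ _).trans (h.nor v)
  minimal := by rw [sff_comp, sff_comp, h.minimal]

theorem nhdsWithin_image_le (P : Pc) {w : ℂ} (hw : w ∈ Sq) :
    𝓝[P.g '' Sq] (P.g w) ≤ map P.g (𝓝[Sq] w) := by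
  intro T hT
  obtain ⟨O, hO, hwO, hOT⟩ := mem_nhdsWithin.1 (mem_map.1 hT)
  have hK : IsCompact (P.g '' (Sq \ O)) :=
    (isCompact_Sq.diff hO).image_of_continuousOn (P.cont.mono sdiff_subset)
  refine mem_nhdsWithin.2 ⟨_, hK.isClosed.isOpen_compl, ?_, ?_⟩
  · rintro ⟨w', hw', h⟩
    exact hw'.2 (P.inj hw'.1 hw h ▸ hwO)
  · rintro _ ⟨h, w', hw', rfl⟩
    by_contra hn
    exact h ⟨w', ⟨hw', fun ho => hn (hOT ⟨ho, hw'⟩)⟩, rfl⟩

theorem onto_base (hG : GroupStmt) (P : Pc) {w : ℂ} (hw : w ∈ Sq) {ψ : ℂ → E4} {N : E4}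
    (h0 : IsChart ψ (P.g w) N) (h1 : ∀ U ∈ 𝓝 (0 : ℂ), ∀ᶠ w' in 𝓝[Sq] w, P.g w' ∈ ψ '' U)
    (h2 : ∀ i, sd i w = 0 → ∃ σ : ℂ → ℂ, Tendsto σ (𝓝 0) (𝓝 0) ∧
      ∀ᶠ z in 𝓝 0, ψ (σ z) = refl i (ψ z))
    (h3 : ∀ᶠ z in 𝓝 0, ∃ k ∈ W, ∃ w' ∈ Sq, ψ z = k (P.g w')) :
    map ψ (𝓝 0) = 𝓝[P.M] (P.g w) := by
  have := finite_W hG
  apply le_antisymm
  · obtain ⟨U, hU, hs⟩ := h0.smooth
    have hc : ContinuousAt ψ 0 := hs.continuousOn.continuousAt hU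
    refine tendsto_nhdsWithin_iff.2 ⟨h0.center ▸ hc, h3.mono ?_⟩
    rintro z ⟨k, hk, w', hw', h⟩
    exact (mem_M P).2 ⟨k, hk, w', hw', h.symm⟩
  · have hst : ∀ k ∈ Subgroup.closure (refl '' {i | sd i w = 0}),
        map k (map ψ (𝓝 0)) ≤ map ψ (𝓝 0) := by
      have gen : ∀ i, sd i w = 0 → map (refl i) (map ψ (𝓝 0)) ≤ map ψ (𝓝 0) := by
        intro i hi
        obtain ⟨σ, hσ, he⟩ := h2 i hi
        have he' : (refl i ∘ ψ) =ᶠ[𝓝 0] ψ ∘ σ := he.mono fun z hz => hz.symm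
        rw [map_map, map_congr he', ← map_map]
        exact map_mono hσ
      intro k hk
      induction hk using Subgroup.closure_induction'' with
      | mem y hy => obtain ⟨i, hi, rfl⟩ := hy; exact gen i hi
      | inv_mem y hy => obtain ⟨i, hi, rfl⟩ := hy; exact gen i hi
      | one => simp
      | mul a b _ _ ha hb =>
        rw [LinearIsometryEquiv.coe_mul, ← map_map]
        exact (map_mono hb).trans ha
    have hg : map P.g (𝓝[Sq] w) ≤ map ψ (𝓝 0) := by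
      intro T hT
      exact (h1 _ (mem_map.1 hT)).mono fun w' ⟨z, hz, h⟩ => h ▸ hz
    unfold Pc.M
    refine (nhdsWithin_biUnion (Set.toFinite (W : Set (E4 ≃ₗᵢ[ℝ] E4))) _ _).le.trans
      (iSup₂_le fun k hk => ?_)
    by_cases hm : P.g w ∈ k '' (P.g '' Sq)
    · obtain ⟨_, ⟨w', hw', rfl⟩, h⟩ := hm
      obtain ⟨rfl, hk'⟩ := key hG P hk hw hw' h
      have : 𝓝[k '' (P.g '' Sq)] (P.g w') = map k (𝓝[P.g '' Sq] (P.g w')) := by
        have := k.toHomeomorph.isEmbedding.map_nhdsWithin_eq (P.g '' Sq) (P.g w')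
        simpa [h] using this.symm
      rw [this]
      exact (map_mono ((nhdsWithin_image_le P hw).trans hg)).trans (hst k hk')
    · rw [notMem_closure_iff_nhdsWithin_eq_bot.1 (by rwa [(piece_compact P k).isClosed.closure_eq])]
      exact bot_le

/-- the data chosen at a point of the surface -/
def Good (P : Pc) (x : E4) (φ : ℂ → E4) (n : E4) : Prop :=
  IsChart φ x n ∧ map φ (𝓝 0) = 𝓝[P.M] x ∧
    ∀ k ∈ W, ∀ w ∈ box 0 1, x = k (P.g w) →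
      (φ =ᶠ[𝓝 0] fun z => k (P.g (w + (P.lam w)⁻¹ • z))) ∧ (normA2 φ n + 2) * P.lam w ^ 2 = P.V w

theorem box_sub : box 0 1 ⊆ Sq := fun _ h => ⟨Ioo_subset_Icc_self h.1, Ioo_subset_Icc_self h.2⟩

theorem ne_zero_of_box {w : ℂ} (h : w ∈ box 0 1) : w ≠ 0 := by
  rintro rfl
  exact lt_irrefl _ h.1.1

theorem uniq (hG : GroupStmt) (P : Pc) {k k' : E4 ≃ₗᵢ[ℝ] E4} (hk : k ∈ W) (hk' : k' ∈ W) {w w' : ℂ}
    (hw : w ∈ box 0 1) (hw' : w' ∈ Sq) (h : k' (P.g w') = k (P.g w)) : w' = w ∧ k' = k := by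
  have h1 : (k⁻¹ * k') (P.g w') = P.g w := by simp [h]
  obtain ⟨h2, h3⟩ := key hG P (W.mul_mem (W.inv_mem hk) hk') (box_sub hw) hw' h1
  refine ⟨h2, ?_⟩
  have : {i | sd i w = 0} = ∅ := by
    ext i
    have a := hw.1.1
    have b := hw.1.2
    have c := hw.2.1
    have d := hw.2.2
    fin_cases i <;> simp [sd] <;> linarith
  rw [this, image_empty, Subgroup.closure_empty, Subgroup.mem_bot] at h3
  exact (inv_mul_eq_one.1 h3).symm

theorem exists_good (hG : GroupStmt) (P : Pc) (x : E4) : ∃ φ n, x ∈ P.M → Good P x φ n := by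
  by_cases hx : x ∈ P.M
  swap
  · exact ⟨0, 0, fun h => absurd h hx⟩
  obtain ⟨k, hk, w, hw, rfl⟩ := (mem_M P).1 hx
  obtain ⟨ψ, N, h0, h1, h2, h3, h4⟩ := P.chart w hw
  refine ⟨k ∘ ψ, k N, fun _ => ⟨chart_comp k h0, ?_, fun k' hk' w' hw' h => ?_⟩⟩
  · rw [← map_map, onto_base hG P hw h0 h1 h2 h3]
    have := k.toHomeomorph.isEmbedding.map_nhdsWithin_eq P.M (P.g w)
    simpa [image_M P hk] using this
  · obtain ⟨rfl, rfl⟩ := uniq hG P hk' hk hw' hw h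
    obtain ⟨h5, h6⟩ := h4 (ne_zero_of_box hw')
    exact ⟨h5.mono fun z hz => congrArg k hz, by rw [normA2_comp, h6]⟩

theorem exists_surf (hG : GroupStmt) (P : Pc) :
    ∃ S : MinSurf, S.M = P.M ∧ ∀ k ∈ W, ∀ w ∈ box 0 1,
      (S.φ (k (P.g w)) =ᶠ[𝓝 0] fun z => k (P.g (w + (P.lam w)⁻¹ • z))) ∧
        (normA2 (S.φ (k (P.g w))) (S.n (k (P.g w))) + 2) * P.lam w ^ 2 = P.V w := by
  choose φ n h using exists_good hG P
  refine ⟨⟨P.M, φ, n, ?_, M_compact hG P, M_conn P, fun x hx => (h x hx).1,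
    fun x hx => (h x hx).2.1⟩, rfl, fun k hk w hw => ?_⟩
  · intro x hx
    obtain ⟨k, -, w, hw, rfl⟩ := (mem_M P).1 hx
    rw [mem_sphere_zero_iff_norm, k.norm_map, P.sph w hw]
  · exact (h _ ((mem_M P).2 ⟨k, hk, w, box_sub hw, rfl⟩)).2.2 k hk w hw rfl

end Pool.Agent.MP_6b3e96_gt.H30
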